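import Mathlib

/-!
# MP_e98778_an (full), module G8: covering by intervals with multiplicity two
-/

set_option autoImplicit false

open MeasureTheory Set

namespace Pool.Agent.Helper25.TF

variable {ι : Type*} [DecidableEq ι]

/-- A minimal subfamily of a finite family of intervals with the same union has multiplicity
at most two, so the sum of its lengths is at most twice the length of a common interval. -/
theorem cover (t : Finset ι) (p q : ι → ℝ) (a b : ℝ) (hab : a ≤ b)
    (h : ∀ i ∈ t, a ≤ p i ∧ p i ≤ q i ∧ q i ≤ b) :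
    ∃ t' ⊆ t, (⋃ i ∈ t, Icc (p i) (q i)) ⊆ (⋃ i ∈ t', Icc (p i) (q i)) ∧
      ∑ i ∈ t', (q i - p i) ≤ 2 * (b - a) := by
  classical
  obtain ⟨t', ht', hmin⟩ := Finset.exists_min_image
    (t.powerset.filter fun t' => (⋃ i ∈ t, Icc (p i) (q i)) ⊆ (⋃ i ∈ t', Icc (p i) (q i)))
    Finset.card ⟨t, Finset.mem_filter.2 ⟨Finset.mem_powerset_self t, Subset.rfl⟩⟩
  simp only [Finset.mem_filter, Finset.mem_powerset] at ht' hmin
  refine ⟨t', ht'.1, ht'.2, ?_⟩
  have hmult : ∀ x, (t'.filter fun i => x ∈ Icc (p i) (q i)).card ≤ 2 := by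
    intro x
    by_contra hc
    push Not at hc
    set T := t'.filter fun i => x ∈ Icc (p i) (q i) with hT
    have hne : T.Nonempty := Finset.card_pos.1 (by omega)
    obtain ⟨i0, hi0, hi0'⟩ := Finset.exists_min_image T p hne
    obtain ⟨j0, hj0, hj0'⟩ := Finset.exists_max_image T q hne
    obtain ⟨k, hkT, hk⟩ : ∃ k ∈ T, k ∉ ({i0, j0} : Finset ι) := by
      by_contra hcon
      push Not at hcon
      have : T ⊆ {i0, j0} := fun k hk => hcon k hk
      have h2 := Finset.card_le_card this
      have h3 : ({i0, j0} : Finset ι).card ≤ 2 := Finset.card_le_two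
      omega
    simp only [Finset.mem_insert, Finset.mem_singleton, not_or] at hk
    simp only [hT, Finset.mem_filter] at hi0 hj0 hkT
    have hkk : k ∈ t' := hkT.1
    have hi0m : p i0 ≤ p k := hi0' k (by simp [hT, hkT.1]; exact hkT.2)
    have hj0m : q k ≤ q j0 := hj0' k (by simp [hT, hkT.1]; exact hkT.2)
    have hsub : (⋃ i ∈ t, Icc (p i) (q i)) ⊆ (⋃ i ∈ t'.erase k, Icc (p i) (q i)) := by
      refine ht'.2.trans ?_
      intro y hy
      simp only [mem_iUnion, exists_prop] at hy ⊢
      obtain ⟨i, hi, hyi⟩ := hy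
      by_cases hik : i = k
      · subst hik
        rcases le_total y x with hyx | hyx
        · exact ⟨i0, Finset.mem_erase.2 ⟨fun h => hk.1 h.symm, hi0.1⟩,
            le_trans hi0m hyi.1, hyx.trans hi0.2.2⟩
        · exact ⟨j0, Finset.mem_erase.2 ⟨fun h => hk.2 h.symm, hj0.1⟩,
            hj0.2.1.trans hyx, hyi.2.trans hj0m⟩
      · exact ⟨i, Finset.mem_erase.2 ⟨hik, hi⟩, hyi⟩
    have h1 := hmin (t'.erase k) ⟨(Finset.erase_subset _ _).trans ht'.1, hsub⟩
    have h2 := Finset.card_erase_lt_of_mem hkk
    omega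
  have key : ∑ i ∈ t', volume (Icc (p i) (q i)) ≤ 2 * volume (Icc a b) := by
    have h1 : ∀ i ∈ t', volume (Icc (p i) (q i)) =
        ∫⁻ x in Icc a b, (Icc (p i) (q i)).indicator 1 x := by
      intro i hi
      obtain ⟨h1, h2, h3⟩ := h i (ht'.1 hi)
      rw [lintegral_indicator_one measurableSet_Icc, Measure.restrict_apply measurableSet_Icc,
        inter_eq_left.2 (Icc_subset_Icc h1 h3)]
    rw [Finset.sum_congr rfl h1, ← lintegral_finsetSum]
    · calc ∫⁻ x in Icc a b, ∑ i ∈ t', (Icc (p i) (q i)).indicator (1 : ℝ → ENNReal) x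
          ≤ ∫⁻ x in Icc a b, 2 := by
            apply lintegral_mono
            intro x
            have := hmult x
            rw [Finset.card_filter] at this
            have h2 : (∑ i ∈ t', (Icc (p i) (q i)).indicator (1 : ℝ → ENNReal) x)
              = ((∑ i ∈ t', if x ∈ Icc (p i) (q i) then 1 else 0 : ℕ) : ENNReal) := by
              push_cast
              apply Finset.sum_congr rfl
              intro i _
              simp [indicator]
            simp only
            rw [h2]
            exact_mod_cast this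
        _ = 2 * volume (Icc a b) := by simp
    · intro i _
      exact measurable_one.indicator measurableSet_Icc
  have h3 : ∑ i ∈ t', volume (Icc (p i) (q i)) = ENNReal.ofReal (∑ i ∈ t', (q i - p i)) := by
    rw [ENNReal.ofReal_sum_of_nonneg]
    · simp
    · intro i hi
      have := h i (ht'.1 hi)
      linarith
  rw [h3, Real.volume_Icc, show (2 : ENNReal) = ENNReal.ofReal 2 by simp,
    ← ENNReal.ofReal_mul (by norm_num)] at key
  exact (ENNReal.ofReal_le_ofReal_iff (by nlinarith)).1 key

end Pool.Agent.Helper25.TF
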