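import Pool.Agent.Helper25.TF.Cover

/-!
# MP_e98778_an (full), module G8: the abstract Kerckhoff-Masur-Smillie estimate

`f s : ℝ → ℝ` is the length of the saddle `s` as a function of the parameter, `X s s'` means that
`s` and `s'` cross. `Bad f X L L'` is the set of parameters at which some saddle of length at most
`L` is crossed by no saddle of length at most `L'`.
-/

set_option autoImplicit false

open MeasureTheory Set

namespace Pool.Agent.Helper25.TF

variable {S : Type*}

/-- Families of length functions. -/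
structure LF (f : S → ℝ → ℝ) (C₀ : ℝ) : Prop where
  C0 : 0 ≤ C₀
  cont : ∀ s, Continuous (f s)
  conv : ∀ s M, OrdConnected {w | f s w ≤ M}
  fin : ∀ a b M, {s | ∃ w ∈ Icc a b, f s w ≤ M}.Finite
  small : ∀ s a b ε M, a ≤ b → 0 ≤ ε → 0 < M → (∃ w ∈ Icc a b, M ≤ f s w) →
    volume {w | w ∈ Icc a b ∧ f s w ≤ ε} ≤ ENNReal.ofReal (C₀ * (ε / M) * (b - a))

/-- Some saddle of length at most `L` is crossed by no saddle of length at most `L'`. -/
def Bad (f : S → ℝ → ℝ) (X : S → S → Prop) (L L' : ℝ) : Set ℝ :=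
  {w | ∃ d, f d w ≤ L ∧ ∀ s, X s d → L' < f s w}

/-- The same outside a finite set `F` of saddles. -/
def BadF (f : S → ℝ → ℝ) (X : S → S → Prop) (F : Finset S) (L L' : ℝ) : Set ℝ :=
  {w | ∃ d, d ∉ F ∧ f d w ≤ L ∧ ∀ s, X s d → L' < f s w}

/-- The constants. -/
def Cj (C₀ : ℝ) : ℕ → ℝ
  | 0 => 0
  | j + 1 => 2 * (C₀ + Cj C₀ j)

theorem Cj_nonneg {C₀ : ℝ} (h : 0 ≤ C₀) (j : ℕ) : 0 ≤ Cj C₀ j := by
  induction j with
  | zero => exact le_rfl
  | succ j ih => simp only [Cj]; positivity

/-- A sublevel set on an interval. -/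
def Isub (f : S → ℝ → ℝ) (M a b : ℝ) (s : S) : Set ℝ := {w | w ∈ Icc a b ∧ f s w ≤ M}

section
variable {f : S → ℝ → ℝ} {C₀ : ℝ} (hf : LF f C₀) {M a b : ℝ} {s : S}
include hf

theorem isub_eq (hne : (Isub f M a b s).Nonempty) :
    Isub f M a b s = Icc (sInf (Isub f M a b s)) (sSup (Isub f M a b s)) := by
  have hcl : IsClosed (Isub f M a b s) :=
    isClosed_Icc.inter (isClosed_le (hf.cont s) continuous_const)
  have hbb : BddBelow (Isub f M a b s) := ⟨a, fun w hw => hw.1.1⟩
  have hba : BddAbove (Isub f M a b s) := ⟨b, fun w hw => hw.1.2⟩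
  have h1 := hcl.csInf_mem hne hbb
  have h2 := hcl.csSup_mem hne hba
  apply Subset.antisymm
  · intro w hw
    exact ⟨csInf_le hbb hw, le_csSup hba hw⟩
  · intro w hw
    refine ⟨⟨h1.1.1.trans hw.1, hw.2.trans h2.1.2⟩, ?_⟩
    exact (hf.conv s M).out h1.2 h2.2 hw

theorem isub_left (hne : (Isub f M a b s).Nonempty) (h : f s (sInf (Isub f M a b s)) < M) :
    sInf (Isub f M a b s) = a := by
  have hcl : IsClosed (Isub f M a b s) :=
    isClosed_Icc.inter (isClosed_le (hf.cont s) continuous_const)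
  have hbb : BddBelow (Isub f M a b s) := ⟨a, fun w hw => hw.1.1⟩
  have h1 := hcl.csInf_mem hne hbb
  set p := sInf (Isub f M a b s) with hp
  by_contra hne'
  have hlt : a < p := lt_of_le_of_ne h1.1.1 (Ne.symm hne')
  have hop : {w | f s w < M} ∈ nhds p := (isOpen_lt (hf.cont s) continuous_const).mem_nhds h
  have hop2 : Ioi a ∈ nhds p := Ioi_mem_nhds hlt
  obtain ⟨w, hw, hw1⟩ : ∃ w ∈ {w | f s w < M} ∩ Ioi a, w < p := by
    have := Filter.inter_mem hop hop2
    obtain ⟨l, hl, hl2⟩ := exists_Ioc_subset_of_mem_nhds this ⟨a, hlt⟩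
    refine ⟨(l + p) / 2, hl2 ⟨?_, ?_⟩, ?_⟩ <;> linarith
  have : w ∈ Isub f M a b s := ⟨⟨(le_of_lt hw.2), hw1.le.trans h1.1.2⟩, le_of_lt hw.1⟩
  have := csInf_le hbb this
  linarith

theorem isub_right (hne : (Isub f M a b s).Nonempty) (h : f s (sSup (Isub f M a b s)) < M) :
    sSup (Isub f M a b s) = b := by
  have hcl : IsClosed (Isub f M a b s) :=
    isClosed_Icc.inter (isClosed_le (hf.cont s) continuous_const)
  have hba : BddAbove (Isub f M a b s) := ⟨b, fun w hw => hw.1.2⟩
  have h1 := hcl.csSup_mem hne hba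
  set p := sSup (Isub f M a b s) with hp
  by_contra hne'
  have hlt : p < b := lt_of_le_of_ne h1.1.2 hne'
  have hop : {w | f s w < M} ∈ nhds p := (isOpen_lt (hf.cont s) continuous_const).mem_nhds h
  have hop2 : Iio b ∈ nhds p := Iio_mem_nhds hlt
  obtain ⟨w, hw, hw1⟩ : ∃ w ∈ {w | f s w < M} ∩ Iio b, p < w := by
    have := Filter.inter_mem hop hop2
    obtain ⟨l, hl, hl2⟩ := exists_Ico_subset_of_mem_nhds this ⟨b, hlt⟩
    refine ⟨(l + p) / 2, hl2 ⟨?_, ?_⟩, ?_⟩ <;> linarith
  have : w ∈ Isub f M a b s := ⟨⟨h1.1.1.trans hw1.le, (le_of_lt hw.2)⟩, le_of_lt hw.1⟩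
  have := le_csSup hba this
  linarith

end

/-- Main estimate, induction on the number of missing saddles. -/
theorem badF_le {f : S → ℝ → ℝ} {C₀ : ℝ} (hf : LF f C₀) {X : S → S → Prop}
    (hX : ∀ s s', X s s' → X s' s) (hXX : ∀ s, ¬ X s s) {N : ℕ}
    (hN : ∀ F : Finset S, (∀ s ∈ F, ∀ s' ∈ F, ¬ X s s') → F.card ≤ N)
    {L M L' : ℝ} (hL : 0 ≤ L) (hLM : L ≤ M) (hM : 0 < M) (hML : M ≤ L') (j : ℕ) :
    ∀ (F : Finset S) (a b : ℝ), (∀ s ∈ F, ∀ s' ∈ F, ¬ X s s') → N ≤ F.card + j → a ≤ b →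
      (∀ s ∈ F, ∀ w ∈ Icc a b, f s w ≤ M) →
      (∀ s, s ∉ F → (∀ s' ∈ F, ¬ X s' s) → ∃ w ∈ Icc a b, M ≤ f s w) →
      volume (BadF f X F L L' ∩ Icc a b) ≤ ENNReal.ofReal (Cj C₀ j * (L / M) * (b - a)) := by
  classical
  -- a short uncrossed saddle does not cross `F`
  have hno : ∀ (F : Finset S) (a b : ℝ), (∀ s ∈ F, ∀ w ∈ Icc a b, f s w ≤ M) →
      ∀ w ∈ Icc a b, ∀ d, (∀ s, X s d → L' < f s w) → ∀ s' ∈ F, ¬ X s' d := by
    intro F a b hFM w hw d hd s' hs' hx
    have := hd s' hx
    have := hFM s' hs' w hw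
    linarith
  induction j with
  | zero =>
    intro F a b hF hcard hab hFM hsup
    have : BadF f X F L L' ∩ Icc a b = ∅ := by
      rw [eq_empty_iff_forall_notMem]
      rintro w ⟨⟨d, hdF, hdL, hd⟩, hw⟩
      have h1 := hno F a b hFM w hw d hd
      have h2 := hN (insert d F) (by
        intro s hs s' hs'
        rw [Finset.mem_insert] at hs hs'
        rcases hs with rfl | hs <;> rcases hs' with rfl | hs'
        · exact hXX _
        · exact fun hx => h1 s' hs' (hX _ _ hx)
        · exact h1 s hs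
        · exact hF s hs s' hs')
      rw [Finset.card_insert_of_notMem hdF] at h2
      omega
    rw [this]; simp
  | succ j ih =>
    intro F a b hF hcard hab hFM hsup
    -- the admissible saddles
    have hGfin : {s | s ∉ F ∧ (∀ s' ∈ F, ¬ X s' s) ∧ (Isub f M a b s).Nonempty}.Finite := by
      refine (hf.fin a b M).subset ?_
      rintro s ⟨_, _, w, hw⟩
      exact ⟨w, hw.1, hw.2⟩
    set G := hGfin.toFinset with hG
    have hGmem : ∀ s, s ∈ G ↔ s ∉ F ∧ (∀ s' ∈ F, ¬ X s' s) ∧ (Isub f M a b s).Nonempty := by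
      intro s; simp [hG]
    set p : S → ℝ := fun s => sInf (Isub f M a b s) with hp
    set q : S → ℝ := fun s => sSup (Isub f M a b s) with hq
    have hI : ∀ s ∈ G, Isub f M a b s = Icc (p s) (q s) := by
      intro s hs
      exact isub_eq hf ((hGmem s).1 hs).2.2
    set t := G.filter fun s => ∃ x ∈ Icc (p s) (q s), ∀ s' ∈ G, x ∈ Icc (p s') (q s') →
      q s' - p s' ≤ q s - p s with ht
    have hIab : ∀ s ∈ G, a ≤ p s ∧ p s ≤ q s ∧ q s ≤ b := by
      intro s hs
      obtain ⟨w, hw⟩ := ((hGmem s).1 hs).2.2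
      have h1 := hw
      rw [hI s hs] at h1
      have h2 : p s ∈ Isub f M a b s := by
        rw [hI s hs]; exact ⟨le_rfl, h1.1.trans h1.2⟩
      have h3 : q s ∈ Isub f M a b s := by
        rw [hI s hs]; exact ⟨h1.1.trans h1.2, le_rfl⟩
      exact ⟨h2.1.1, h1.1.trans h1.2, h3.1.2⟩
    obtain ⟨t', ht't, hcov, hlen⟩ := cover t p q a b hab
      (fun i hi => hIab i (Finset.mem_filter.1 hi).1)
    -- every bad point is covered
    have hcov1 : BadF f X F L L' ∩ Icc a b ⊆
        ⋃ s ∈ t', (BadF f X F L L' ∩ Icc (p s) (q s)) := by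
      rintro x ⟨hx, hxab⟩
      obtain ⟨d, hdF, hdL, hd⟩ := id hx
      have hdG : d ∈ G := (hGmem d).2 ⟨hdF, hno F a b hFM x hxab d hd,
        ⟨x, hxab, hdL.trans hLM⟩⟩
      have hdx : x ∈ Icc (p d) (q d) := by
        rw [← hI d hdG]; exact ⟨hxab, hdL.trans hLM⟩
      obtain ⟨s, hs, hs'⟩ := Finset.exists_max_image (G.filter fun s => x ∈ Icc (p s) (q s))
        (fun s => q s - p s) ⟨d, Finset.mem_filter.2 ⟨hdG, hdx⟩⟩
      rw [Finset.mem_filter] at hs
      have hst : s ∈ t := by
        rw [ht, Finset.mem_filter]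
        refine ⟨hs.1, x, hs.2, fun s' h1 h2 => hs' s' (Finset.mem_filter.2 ⟨h1, h2⟩)⟩
      have : x ∈ ⋃ i ∈ t, Icc (p i) (q i) := by
        simp only [mem_iUnion, exists_prop]
        exact ⟨s, hst, hs.2⟩
      have := hcov this
      simp only [mem_iUnion, exists_prop] at this ⊢
      obtain ⟨i, hi, hxi⟩ := this
      exact ⟨i, hi, hx, hxi⟩
    -- the estimate on one interval
    have hone : ∀ s ∈ t', volume (BadF f X F L L' ∩ Icc (p s) (q s)) ≤
        ENNReal.ofReal ((C₀ + Cj C₀ j) * (L / M) * (q s - p s)) := by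
      intro s hs
      have hst := Finset.mem_filter.1 (ht't hs)
      obtain ⟨hsG, x, hx, hxmax⟩ := hst
      obtain ⟨hsF, hsX, hsne⟩ := (hGmem s).1 hsG
      obtain ⟨hap, hpq, hqb⟩ := hIab s hsG
      have hle : ∀ w ∈ Icc (p s) (q s), f s w ≤ M := by
        intro w hw
        rw [← hI s hsG] at hw
        exact hw.2
      -- supremum on the interval
      have hsupM : ∃ w ∈ Icc (p s) (q s), M ≤ f s w := by
        by_contra hcon
        push Not at hcon
        have h1 : p s = a := isub_left hf hsne (hcon _ ⟨le_rfl, hpq⟩)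
        have h2 : q s = b := isub_right hf hsne (hcon _ ⟨hpq, le_rfl⟩)
        obtain ⟨w, hw, hMw⟩ := hsup s hsF hsX
        rw [← h1, ← h2] at hw
        exact absurd hMw (not_le.2 (hcon w hw))
      have hsm := hf.small s (p s) (q s) L M hpq hL hM hsupM
      have hind := ih (insert s F) (p s) (q s) (by
          intro u hu u' hu'
          rw [Finset.mem_insert] at hu hu'
          rcases hu with rfl | hu <;> rcases hu' with rfl | hu'
          · exact hXX _
          · exact fun h => hsX u' hu' (hX _ _ h)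
          · exact hsX u hu
          · exact hF u hu u' hu')
        (by rw [Finset.card_insert_of_notMem hsF]; omega) hpq (by
          intro u hu w hw
          rw [Finset.mem_insert] at hu
          rcases hu with rfl | hu
          · exact hle w hw
          · exact hFM u hu w ⟨hap.trans hw.1, hw.2.trans hqb⟩)
        (by
          intro u hu huX
          rw [Finset.mem_insert, not_or] at hu
          by_contra hcon
          push Not at hcon
          have huG : u ∈ G := by
            refine (hGmem u).2 ⟨hu.2, fun s' hs' => huX s' (Finset.mem_insert_of_mem hs'), ?_⟩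
            exact ⟨p s, ⟨hap, hpq.trans hqb⟩, (hcon _ ⟨le_rfl, hpq⟩).le⟩
          have hsub : Icc (p s) (q s) ⊆ Icc (p u) (q u) := by
            intro w hw
            rw [← hI u huG]
            exact ⟨⟨hap.trans hw.1, hw.2.trans hqb⟩, (hcon w hw).le⟩
          have h1 := hxmax u huG (hsub hx)
          have h2 := (hsub ⟨le_rfl, hpq⟩).1
          have h3 := (hsub ⟨hpq, le_rfl⟩).2
          have h4 : p u = p s := by linarith
          have h5 : q u = q s := by linarith
          have hune := ((hGmem u).1 huG).2.2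
          have h6 : p u = a := isub_left hf hune (by
            have := hcon (p s) ⟨le_rfl, hpq⟩
            rw [← h4] at this; exact this)
          have h7 : q u = b := isub_right hf hune (by
            have := hcon (q s) ⟨hpq, le_rfl⟩
            rw [← h5] at this; exact this)
          obtain ⟨w, hw, hMw⟩ := hsup u hu.2 (fun s' hs' => huX s' (Finset.mem_insert_of_mem hs'))
          rw [← h6, ← h7, h4, h5] at hw
          exact absurd hMw (not_le.2 (hcon w hw)))
      have hsubset : BadF f X F L L' ∩ Icc (p s) (q s) ⊆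
          {w | w ∈ Icc (p s) (q s) ∧ f s w ≤ L} ∪ (BadF f X (insert s F) L L' ∩ Icc (p s) (q s)) := by
        rintro w ⟨⟨d, hdF, hdL, hd⟩, hw⟩
        by_cases hds : d = s
        · subst hds
          exact Or.inl ⟨hw, hdL⟩
        · refine Or.inr ⟨⟨d, ?_, hdL, hd⟩, hw⟩
          rw [Finset.mem_insert, not_or]
          exact ⟨hds, hdF⟩
      refine (measure_mono hsubset).trans ((measure_union_le _ _).trans
        ((add_le_add hsm hind).trans ?_))
      have hLM0 : 0 ≤ L / M := div_nonneg hL hM.le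
      have hqp : 0 ≤ q s - p s := by linarith
      rw [← ENNReal.ofReal_add (mul_nonneg (mul_nonneg hf.C0 hLM0) hqp)
        (mul_nonneg (mul_nonneg (Cj_nonneg hf.C0 j) hLM0) hqp)]
      apply ENNReal.ofReal_le_ofReal
      apply le_of_eq; ring
    refine (measure_mono hcov1).trans ((measure_biUnion_finset_le _ _).trans
      ((Finset.sum_le_sum hone).trans ?_))
    have hLM0 : 0 ≤ L / M := div_nonneg hL hM.le
    have hCj := Cj_nonneg hf.C0 j
    have hC0 := hf.C0
    rw [← ENNReal.ofReal_sum_of_nonneg]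
    · apply ENNReal.ofReal_le_ofReal
      rw [← Finset.mul_sum]
      calc (C₀ + Cj C₀ j) * (L / M) * ∑ i ∈ t', (q i - p i)
          ≤ (C₀ + Cj C₀ j) * (L / M) * (2 * (b - a)) :=
            mul_le_mul_of_nonneg_left hlen (by positivity)
        _ = Cj C₀ (j + 1) * (L / M) * (b - a) := by simp only [Cj]; ring
    · intro s hs
      obtain ⟨_, h2, _⟩ := hIab s (Finset.mem_filter.1 (ht't hs)).1
      have : 0 ≤ q s - p s := by linarith
      positivity

/-- The set of parameters where a saddle of length at most `L` is not crossed by saddles of length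
at most `L'`. -/
theorem bad_le {f : S → ℝ → ℝ} {C₀ : ℝ} (hf : LF f C₀) {X : S → S → Prop}
    (hX : ∀ s s', X s s' → X s' s) (hXX : ∀ s, ¬ X s s) {N : ℕ}
    (hN : ∀ F : Finset S, (∀ s ∈ F, ∀ s' ∈ F, ¬ X s s') → F.card ≤ N)
    {L M L' : ℝ} (hL : 0 ≤ L) (hLM : L ≤ M) (hM : 0 < M) (hML : M ≤ L') {a b : ℝ} (hab : a ≤ b)
    (hsup : ∀ s, ∃ w ∈ Icc a b, M ≤ f s w) :
    volume (Bad f X L L' ∩ Icc a b) ≤ ENNReal.ofReal (Cj C₀ N * (L / M) * (b - a)) := by
  have h := badF_le hf hX hXX hN hL hLM hM hML N ∅ a b (by simp) (by simp) hab (by simp)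
    (fun s _ _ => hsup s)
  have h2 : Bad f X L L' = BadF f X ∅ L L' := by
    ext w; simp [Bad, BadF]
  rw [h2]; exact h

end Pool.Agent.Helper25.TF
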