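import Pool.Agent.Helper25.TF.KMS

/-!
# MP_e98778_an (full), module G8: the Kerckhoff-Masur-Smillie estimate

`kms`: from the existence of short uncrossed saddles (UNC) and the lower bound `ρ` for the suprema
of the lengths, the proportion of parameters with a saddle of length at most `r` is at most
`C (r/ρ)^(1/(2n))`. `lf_plane`: the lengths `|(e^t (x - w y), e^{-t} y)|` form such a family.
-/

set_option autoImplicit false

open MeasureTheory Set

namespace Pool.Agent.Helper25.TF

variable {S : Type*}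

/-- The constant of `kms`. -/
noncomputable def Ckms (C₀ : ℝ) (N n : ℕ) (Λ : ℝ) : ℝ := 2 * n * Cj C₀ N + Λ + 4

theorem kms {f : S → ℝ → ℝ} {C₀ : ℝ} (hf : LF f C₀) {X : S → S → Prop}
    (hX : ∀ s s', X s s' → X s' s) (hXX : ∀ s, ¬ X s s) {N : ℕ}
    (hN : ∀ F : Finset S, (∀ s ∈ F, ∀ s' ∈ F, ¬ X s s') → F.card ≤ N)
    {n : ℕ} (hn : 0 < n) {Λ ρ₀ : ℝ} (hΛ : 0 ≤ Λ) {a b : ℝ} (hab : a ≤ b)
    (unc : ∀ r l : ℝ, 0 < r → Λ ≤ l → r * l ^ n ≤ ρ₀ → ∀ w ∈ Icc a b, (∃ s, f s w ≤ r) →
      ∃ k < n, w ∈ Bad f X (r * l ^ k) (r * l ^ (k + 1) / 4))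
    {ρ : ℝ} (hρ : 0 < ρ) (hρ₀ : ρ ≤ ρ₀) (hsup : ∀ s, ∃ w ∈ Icc a b, ρ ≤ f s w)
    {r : ℝ} (hr : 0 < r) :
    volume {w | w ∈ Icc a b ∧ ∃ s, f s w ≤ r} ≤
      ENNReal.ofReal (Ckms C₀ N n Λ * (r / ρ) ^ (1 / (2 * (n : ℝ))) * (b - a)) := by
  have hC0 := hf.C0
  have hCj := Cj_nonneg hC0 N
  have hn' : (0 : ℝ) < n := by exact_mod_cast hn
  have hrρ : 0 < r / ρ := div_pos hr hρ
  set α : ℝ := 1 / (2 * (n : ℝ)) with hα
  have hα0 : 0 < α := by positivity
  have hpow : 0 < (r / ρ) ^ α := Real.rpow_pos_of_pos hrρ _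
  by_cases hcase : (Λ + 4) ^ (-(1 : ℝ)) < (r / ρ) ^ α
  · -- trivial bound
    have h1 : volume {w | w ∈ Icc a b ∧ ∃ s, f s w ≤ r} ≤ ENNReal.ofReal (b - a) := by
      rw [← Real.volume_Icc]
      exact measure_mono fun w hw => hw.1
    refine h1.trans (ENNReal.ofReal_le_ofReal ?_)
    have h2 : 1 ≤ (Λ + 4) * (r / ρ) ^ α := by
      rw [Real.rpow_neg_one] at hcase
      have : (Λ + 4)⁻¹ * (Λ + 4) = 1 := inv_mul_cancel₀ (by positivity)
      nlinarith
    have h3 : (1 : ℝ) ≤ Ckms C₀ N n Λ * (r / ρ) ^ α := by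
      refine h2.trans ?_
      apply mul_le_mul_of_nonneg_right _ hpow.le
      have : 0 ≤ 2 * (n : ℝ) * Cj C₀ N := by positivity
      simp only [Ckms]; linarith
    nlinarith
  · push Not at hcase
    -- the ratio
    set l : ℝ := (ρ / r) ^ (1 / (n : ℝ)) with hl
    have hρr : 0 < ρ / r := div_pos hρ hr
    have hl0 : 0 < l := Real.rpow_pos_of_pos hρr _
    have hln : l ^ n = ρ / r := by
      rw [hl, ← Real.rpow_natCast, ← Real.rpow_mul hρr.le]
      have : 1 / (n : ℝ) * n = 1 := by field_simp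
      rw [this, Real.rpow_one]
    have hsq : (r / ρ) ^ α = (Real.sqrt l)⁻¹ := by
      rw [Real.sqrt_eq_rpow, hl, ← Real.rpow_mul hρr.le, ← Real.rpow_neg hρr.le, hα,
        show r / ρ = (ρ / r)⁻¹ by rw [inv_div], Real.inv_rpow hρr.le, ← Real.rpow_neg hρr.le]
      congr 1
      field_simp
    have hsql : Λ + 4 ≤ Real.sqrt l := by
      rw [hsq, Real.rpow_neg_one] at hcase
      exact (inv_le_inv₀ (Real.sqrt_pos.2 hl0) (by positivity)).1 hcase
    have hsq2 : Real.sqrt l ^ 2 = l := Real.sq_sqrt hl0.le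
    have hl16 : Real.sqrt l ≤ l := by nlinarith
    have hΛl : Λ ≤ l := by linarith
    have hl1 : 1 ≤ l := by linarith
    have hrl : r * l ^ n = ρ := by rw [hln]; field_simp
    have hcov : {w | w ∈ Icc a b ∧ ∃ s, f s w ≤ r} ⊆
        ⋃ k ∈ Finset.range n, (Bad f X (r * l ^ k) (r * l ^ (k + 1) / 4) ∩ Icc a b) := by
      rintro w ⟨hw, hs⟩
      obtain ⟨k, hk, hk2⟩ := unc r l hr hΛl (by rw [hrl]; exact hρ₀) w hw hs
      simp only [mem_iUnion, exists_prop, Finset.mem_range]
      exact ⟨k, hk, hk2, hw⟩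
    have hone : ∀ k ∈ Finset.range n,
        volume (Bad f X (r * l ^ k) (r * l ^ (k + 1) / 4) ∩ Icc a b) ≤
          ENNReal.ofReal (Cj C₀ N * (2 * (r / ρ) ^ α) * (b - a)) := by
      intro k hk
      rw [Finset.mem_range] at hk
      have hlk : 0 < l ^ k := pow_pos hl0 k
      have hsl0 : 0 < Real.sqrt l := Real.sqrt_pos.2 hl0
      have hM : 0 < r * l ^ k * Real.sqrt l / 2 := by positivity
      have h := bad_le hf hX hXX hN (L := r * l ^ k) (M := r * l ^ k * Real.sqrt l / 2)
        (L' := r * l ^ (k + 1) / 4) (by positivity) (by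
          have : 0 < r * l ^ k := by positivity
          nlinarith) hM (by
          rw [pow_succ]
          have h1 : 2 * Real.sqrt l ≤ l := by nlinarith
          have : 0 < r * l ^ k := by positivity
          nlinarith) hab (by
          intro s
          obtain ⟨w, hw, hw2⟩ := hsup s
          refine ⟨w, hw, le_trans ?_ hw2⟩
          have h1 : l ^ (k + 1) ≤ l ^ n := pow_le_pow_right₀ hl1 hk
          have h2 : r * l ^ k * Real.sqrt l ≤ r * l ^ (k + 1) := by
            rw [pow_succ]
            have : 0 < r * l ^ k := by positivity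
            nlinarith
          have h3 : r * l ^ (k + 1) ≤ ρ := by
            rw [← hrl]
            exact mul_le_mul_of_nonneg_left h1 hr.le
          linarith)
      convert h using 5
      rw [hsq]
      field_simp
    refine (measure_mono hcov).trans ((measure_biUnion_finset_le _ _).trans
      ((Finset.sum_le_sum hone).trans ?_))
    rw [Finset.sum_const, Finset.card_range, nsmul_eq_mul,
      show (n : ENNReal) = ENNReal.ofReal n by simp, ← ENNReal.ofReal_mul hn'.le]
    apply ENNReal.ofReal_le_ofReal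
    have hba : 0 ≤ b - a := by linarith
    have : (n : ℝ) * (Cj C₀ N * (2 * (r / ρ) ^ α) * (b - a)) =
      (2 * n * Cj C₀ N) * ((r / ρ) ^ α * (b - a)) := by ring
    rw [this, mul_assoc (Ckms C₀ N n Λ)]
    apply mul_le_mul_of_nonneg_right _ (by positivity)
    simp only [Ckms]; linarith

/-- The length of the vector `(x, y)` after `D_t L_w`. -/
noncomputable def lenW (t x y w : ℝ) : ℝ :=
  Real.sqrt ((Real.exp t * (x - w * y)) ^ 2 + (Real.exp (-t) * y) ^ 2)

theorem lenW_sq (t x y w : ℝ) :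
    lenW t x y w ^ 2 = (Real.exp t * (x - w * y)) ^ 2 + (Real.exp (-t) * y) ^ 2 :=
  Real.sq_sqrt (by positivity)

theorem lenW_nonneg (t x y w : ℝ) : 0 ≤ lenW t x y w := Real.sqrt_nonneg _

theorem lenW_cont (t x y : ℝ) : Continuous (lenW t x y) := by
  unfold lenW; fun_prop

theorem lenW_conv (t x y M : ℝ) : OrdConnected {w | lenW t x y w ≤ M} := by
  by_cases hM : 0 ≤ M
  · have h1 : {w | lenW t x y w ≤ M} = {w | (Real.exp t * (x - w * y)) ^ 2 ≤
        M ^ 2 - (Real.exp (-t) * y) ^ 2} := by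
      ext w
      simp only [mem_ofPred_eq]
      rw [← abs_of_nonneg (lenW_nonneg t x y w), ← abs_of_nonneg hM, ← sq_le_sq, lenW_sq, sq_abs]
      constructor <;> intro h <;> linarith
    rw [h1]
    constructor
    intro u hu v hv w hw
    simp only [mem_ofPred_eq] at *
    -- convexity of the square of an affine function
    rcases le_total 0 (x - w * y) with h0 | h0
    · rcases le_total 0 y with hy | hy
      · have : x - w * y ≤ x - u * y := by nlinarith [hw.1]
        have h2 : Real.exp t * (x - w * y) ≤ Real.exp t * (x - u * y) :=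
          mul_le_mul_of_nonneg_left this (Real.exp_pos t).le
        have h3 : 0 ≤ Real.exp t * (x - w * y) := mul_nonneg (Real.exp_pos t).le h0
        nlinarith
      · have : x - w * y ≤ x - v * y := by nlinarith [hw.2]
        have h2 : Real.exp t * (x - w * y) ≤ Real.exp t * (x - v * y) :=
          mul_le_mul_of_nonneg_left this (Real.exp_pos t).le
        have h3 : 0 ≤ Real.exp t * (x - w * y) := mul_nonneg (Real.exp_pos t).le h0
        nlinarith
    · rcases le_total 0 y with hy | hy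
      · have : x - v * y ≤ x - w * y := by nlinarith [hw.2]
        have h2 : Real.exp t * (x - v * y) ≤ Real.exp t * (x - w * y) :=
          mul_le_mul_of_nonneg_left this (Real.exp_pos t).le
        have h3 : Real.exp t * (x - w * y) ≤ 0 :=
          mul_nonpos_of_nonneg_of_nonpos (Real.exp_pos t).le h0
        nlinarith
      · have : x - u * y ≤ x - w * y := by nlinarith [hw.1]
        have h2 : Real.exp t * (x - u * y) ≤ Real.exp t * (x - w * y) :=
          mul_le_mul_of_nonneg_left this (Real.exp_pos t).le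
        have h3 : Real.exp t * (x - w * y) ≤ 0 :=
          mul_nonpos_of_nonneg_of_nonpos (Real.exp_pos t).le h0
        nlinarith
  · have : {w | lenW t x y w ≤ M} = ∅ := by
      ext w
      simp only [mem_ofPred_eq, mem_empty_iff_false, iff_false, not_le]
      push Not at hM
      exact lt_of_lt_of_le hM (lenW_nonneg _ _ _ _)
    rw [this]; exact ordConnected_empty

/-- If the length reaches `M` on `[a,b]`, then it is at most `ε` on a set of measure at most
`8 (ε/M) (b-a)`. -/
theorem lenW_small (t x y a b ε M : ℝ) (hab : a ≤ b) (hε : 0 ≤ ε) (hM : 0 < M)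
    (h : ∃ w ∈ Icc a b, M ≤ lenW t x y w) :
    volume {w | w ∈ Icc a b ∧ lenW t x y w ≤ ε} ≤ ENNReal.ofReal (8 * (ε / M) * (b - a)) := by
  by_cases hne : {w | w ∈ Icc a b ∧ lenW t x y w ≤ ε}.Nonempty
  swap
  · rw [not_nonempty_iff_eq_empty] at hne
    rw [hne]; simp
  obtain ⟨w1, hw1, hw1ε⟩ := hne
  obtain ⟨w2, hw2, hw2M⟩ := h
  by_cases hcase : M < 4 * ε
  · have h1 : volume {w | w ∈ Icc a b ∧ lenW t x y w ≤ ε} ≤ ENNReal.ofReal (b - a) := by
      rw [← Real.volume_Icc]
      exact measure_mono fun w hw => hw.1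
    refine h1.trans (ENNReal.ofReal_le_ofReal ?_)
    have : 1 ≤ 8 * (ε / M) := by
      rw [← mul_div_assoc, le_div_iff₀ hM]; linarith
    nlinarith
  push Not at hcase
  have hE := Real.exp_pos t
  have hE' := Real.exp_pos (-t)
  have hEE : Real.exp t * Real.exp (-t) = 1 := by rw [← Real.exp_add]; simp
  -- bounds from a length
  have hb : ∀ w δ, 0 ≤ δ → lenW t x y w ≤ δ → |Real.exp t * (x - w * y)| ≤ δ ∧
      |Real.exp (-t) * y| ≤ δ := by
    intro w δ hδ hw
    have h2 := lenW_sq t x y w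
    have h3 : lenW t x y w ^ 2 ≤ δ ^ 2 := by
      have := lenW_nonneg t x y w
      nlinarith
    constructor
    · apply abs_le_of_sq_le_sq _ hδ
      nlinarith [sq_nonneg (Real.exp (-t) * y)]
    · apply abs_le_of_sq_le_sq _ hδ
      nlinarith [sq_nonneg (Real.exp t * (x - w * y))]
  obtain ⟨h1a, h1b⟩ := hb w1 ε hε hw1ε
  -- the second vector is long
  have h2 : M / 4 ≤ Real.exp t * |y| * (b - a) := by
    have h3 : M ≤ |Real.exp t * (x - w2 * y)| + |Real.exp (-t) * y| := by
      refine hw2M.trans ?_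
      have h4 := lenW_sq t x y w2
      have h5 : lenW t x y w2 ^ 2 ≤
          (|Real.exp t * (x - w2 * y)| + |Real.exp (-t) * y|) ^ 2 := by
        rw [h4, ← sq_abs (Real.exp t * (x - w2 * y)), ← sq_abs (Real.exp (-t) * y)]
        nlinarith [abs_nonneg (Real.exp t * (x - w2 * y)), abs_nonneg (Real.exp (-t) * y)]
      exact abs_le_of_sq_le_sq' h5 (by positivity) |>.2
    have h4 : |Real.exp t * (x - w2 * y)| ≤ |Real.exp t * (x - w1 * y)| +
        Real.exp t * |y| * |w1 - w2| := by
      have : Real.exp t * (x - w2 * y) = Real.exp t * (x - w1 * y) +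
        Real.exp t * y * (w1 - w2) := by ring
      rw [this]
      refine (abs_add_le _ _).trans ?_
      rw [abs_mul (Real.exp t * y), abs_mul (Real.exp t) y, abs_of_pos hE]
    have h5 : |w1 - w2| ≤ b - a := by
      rw [abs_le]; constructor <;> linarith [hw1.1, hw1.2, hw2.1, hw2.2]
    have h6 : Real.exp t * |y| * |w1 - w2| ≤ Real.exp t * |y| * (b - a) :=
      mul_le_mul_of_nonneg_left h5 (by positivity)
    linarith
  -- the set is contained in a short interval
  have hy : 0 < |y| := by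
    by_contra hy
    have : |y| = 0 := le_antisymm (not_lt.1 hy) (abs_nonneg _)
    rw [this] at h2
    linarith
  have hsub : {w | w ∈ Icc a b ∧ lenW t x y w ≤ ε} ⊆
      Icc (x / y - ε / (Real.exp t * |y|)) (x / y + ε / (Real.exp t * |y|)) := by
    rintro w ⟨_, hw⟩
    obtain ⟨h7, _⟩ := hb w ε hε hw
    have hy0 : y ≠ 0 := abs_pos.1 hy
    have h8 : |w - x / y| ≤ ε / (Real.exp t * |y|) := by
      rw [le_div_iff₀ (by positivity)]
      have : |w - x / y| * (Real.exp t * |y|) = |Real.exp t * (x - w * y)| := by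
        rw [abs_mul, abs_of_pos hE, ← abs_neg (x - w * y)]
        have h9 : -(x - w * y) = (w - x / y) * y := by field_simp; ring
        rw [h9, abs_mul]; ring
      rw [this]; exact h7
    rw [abs_le] at h8
    constructor <;> linarith
  refine (measure_mono hsub).trans ?_
  rw [Real.volume_Icc]
  apply ENNReal.ofReal_le_ofReal
  have h9 : x / y + ε / (Real.exp t * |y|) - (x / y - ε / (Real.exp t * |y|)) =
      2 * ε / (Real.exp t * |y|) := by ring
  rw [h9, div_le_iff₀ (by positivity)]
  have h10 : 8 * (ε / M) * (b - a) * (Real.exp t * |y|) =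
      8 * (ε / M) * (Real.exp t * |y| * (b - a)) := by ring
  rw [h10]
  have h11 : 8 * (ε / M) * (M / 4) ≤ 8 * (ε / M) * (Real.exp t * |y| * (b - a)) :=
    mul_le_mul_of_nonneg_left h2 (by positivity)
  have h12 : 8 * (ε / M) * (M / 4) = 2 * ε := by field_simp; ring
  linarith

/-- The lengths of a family of vectors under `D_t L_w`, `w` in a bounded interval, form a family
as in `kms`, if only finitely many are short (the vectors are counted with their labels). -/
theorem lf_plane (t : ℝ) (x y : S → ℝ)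
    (hfin : ∀ a b M, {s | ∃ w ∈ Icc a b, lenW t (x s) (y s) w ≤ M}.Finite) :
    LF (fun s => lenW t (x s) (y s)) 8 where
  C0 := by norm_num
  cont s := lenW_cont _ _ _
  conv s M := lenW_conv _ _ _ _
  fin := hfin
  small s a b ε M hab hε hM h := lenW_small _ _ _ a b ε M hab hε hM h

/-- Finiteness follows from the finiteness of the set of vectors of bounded length. -/
theorem fin_plane (t : ℝ) (x y : S → ℝ) (h : ∀ R, {s | |x s| ≤ R ∧ |y s| ≤ R}.Finite) :
    ∀ a b M, {s | ∃ w ∈ Icc a b, lenW t (x s) (y s) w ≤ M}.Finite := by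
  intro a b M
  have hE := Real.exp_pos t
  have hE' := Real.exp_pos (-t)
  have hEE : Real.exp t * Real.exp (-t) = 1 := by rw [← Real.exp_add]; simp
  refine (h (Real.exp (-t) * |M| + (|a| + |b|) * (Real.exp t * |M|) + Real.exp t * |M|)).subset ?_
  rintro s ⟨w, hw, hwM⟩
  have h2 := lenW_sq t (x s) (y s) w
  have hn := lenW_nonneg t (x s) (y s) w
  have h3 : lenW t (x s) (y s) w ^ 2 ≤ |M| ^ 2 := by
    have := le_abs_self M
    nlinarith
  have h4 : |Real.exp t * (x s - w * y s)| ≤ |M| := by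
    apply abs_le_of_sq_le_sq _ (abs_nonneg _)
    nlinarith [sq_nonneg (Real.exp (-t) * y s)]
  have h5 : |Real.exp (-t) * y s| ≤ |M| := by
    apply abs_le_of_sq_le_sq _ (abs_nonneg _)
    nlinarith [sq_nonneg (Real.exp t * (x s - w * y s))]
  rw [abs_mul, abs_of_pos hE] at h4
  rw [abs_mul, abs_of_pos hE'] at h5
  have h6 : |y s| ≤ Real.exp t * |M| := by
    calc |y s| = Real.exp t * (Real.exp (-t) * |y s|) := by rw [← mul_assoc, hEE, one_mul]
      _ ≤ _ := mul_le_mul_of_nonneg_left h5 hE.le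
  have h7 : |x s - w * y s| ≤ Real.exp (-t) * |M| := by
    calc |x s - w * y s| = Real.exp (-t) * (Real.exp t * |x s - w * y s|) := by
          rw [← mul_assoc, mul_comm (Real.exp (-t)), hEE, one_mul]
      _ ≤ _ := mul_le_mul_of_nonneg_left h4 hE'.le
  have hw' : |w| ≤ |a| + |b| := by
    rw [abs_le]
    have := neg_abs_le a
    have := le_abs_self b
    have := abs_nonneg a
    have := abs_nonneg b
    constructor <;> linarith [hw.1, hw.2]
  have h8 : |x s| ≤ |x s - w * y s| + |w| * |y s| := by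
    calc |x s| = |(x s - w * y s) + w * y s| := by ring_nf
      _ ≤ _ := (abs_add_le _ _).trans (by rw [abs_mul])
  have h9 : |w| * |y s| ≤ (|a| + |b|) * (Real.exp t * |M|) :=
    mul_le_mul hw' h6 (abs_nonneg _) (by positivity)
  have h10 : 0 ≤ (|a| + |b|) * (Real.exp t * |M|) := by positivity
  have h11 : 0 ≤ Real.exp (-t) * |M| := by positivity
  have h12 : 0 ≤ Real.exp t * |M| := by positivity
  exact ⟨by linarith, by linarith⟩

end Pool.Agent.Helper25.TF
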